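import Mathlib
import Pool.Agent.H418.FP.Cor

/-!
The core with prescribed sets of degrees (an adaptation of `Pool/Agent/H418/FP/Cor.lean`).
-/

set_option autoImplicit false

namespace Pool.Agent.H418.FQ

open Pool.Agent.H391R2 Pool.Agent.H391R2.T4 Pool.Agent.Y793 Pool.Agent.H418.FA
open Pool.Agent.H418.FP

/-- The embedding problems with perfect kernels are properly solvable by alternating fibre powers
with a degree in `E`. -/
def PerfSolvE (G : Type) [Group G] [TopologicalSpace G] (E : Set ℕ) : Prop :=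
  ∀ (Γ B : Type) [Group Γ] [Finite Γ] [Group B] [Finite B] (q : G →* Γ),
    IsOpen (q.ker : Set G) → Function.Surjective q → ∀ α : B →* Γ, Function.Surjective α →
    commutator α.ker = ⊤ → ∃ n, 5 ≤ n ∧ n ∈ E ∧ ∃ g : G →* AltEP α n,
      IsOpen (g.ker : Set G) ∧ Function.Surjective g ∧ ∀ x, altProj α n (g x) = q x

/-- The conditions on the set `S`. -/
structure GoodE (G : Type) [Group G] [TopologicalSpace G] (D : Set ℕ) (E : Set ℕ)
    (S : Set (Subgroup G)) : Prop where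
  le : ∀ N ∈ S, TRes2 G ≤ N
  mem : ∀ (m n : ℕ), m ∈ D → 5 ≤ m → 5 ≤ n → n ∈ E → ∀ f : G →* AW m n,
    Function.Surjective f → IsOpen (f.ker : Set G) → f.ker ∈ S

theorem core2E {G : Type} [Group G] [TopologicalSpace G] [IsTopologicalGroup G] [CompactSpace G]
    {D : Set ℕ} (hD : ∀ a : ℕ, 0 < a → ∃ m ∈ D, 0 < m ∧ a ∣ m) {E : Set ℕ}
    (hG : PerfSolvE G E) (S : Set (Subgroup G)) (hS : GoodE G D E S)
    {Γ B : Type} [Group Γ] [Finite Γ] [Group B] [Finite B] (q : G →* Γ)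
    (hqo : IsOpen (q.ker : Set G)) (hqs : Function.Surjective q) (Δ : Subgroup Γ)
    (hΔ : ∀ γ, γ ∈ Δ ↔ ∃ h ∈ sInf S, q h = γ) (α : B →* Δ) (hα : Function.Surjective α) :
    ∃ ψ : (sInf S : Subgroup G) →* B, IsOpen (ψ.ker : Set (sInf S : Subgroup G)) ∧
      Function.Surjective ψ ∧ ∀ x, (α (ψ x) : Γ) = q x := by
  obtain ⟨A, hA⟩ : ∃ A, A = indProj Δ α := ⟨_, rfl⟩
  have hAs : Function.Surjective A := by
    intro γ
    rw [hA]
    exact exists_ind Δ α hα γ
  obtain ⟨m, hmD, hm0, hm⟩ := hD (2 * Nat.card Γ * 5) (by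
    have := Nat.card_pos (α := Γ)
    positivity)
  have hm5 : 5 ≤ m := Nat.le_of_dvd hm0 (Dvd.dvd.trans (Dvd.intro_left _ rfl) hm)
  obtain ⟨s, hs⟩ := exists_split A hAs m (Dvd.dvd.trans (Dvd.intro _ rfl) hm)
  have hfE := finite_E0 A m s
  obtain ⟨n, hn5, hnN, g, hgo, hgs, hgq⟩ := hG Γ (E0 A m s) q hqo hqs (pr0 A m s)
    (pr0_surj A m s) (ker_perfect A m s hm5)
  have hq : ∀ x : G, (g x).1.2 = q x := hgq
  -- the map to the wreath product
  have hfo : IsOpen (((theta A m s n).comp g).ker : Set G) := by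
    refine Subgroup.isOpen_mono (H₁ := g.ker) (fun x hx => ?_) hgo
    rw [MonoidHom.mem_ker] at hx ⊢
    rw [MonoidHom.comp_apply, hx, map_one]
  have hfS := hS.mem m n hmD hm5 hn5 hnN ((theta A m s n).comp g)
    ((theta_surj A m s hm5 n).comp hgs) hfo
  have hH : ∀ h ∈ sInf S, theta A m s n (g h) = 1 := fun h hh => Subgroup.mem_sInf.1 hh _ hfS
  let i₀ : Fin n := ⟨0, by omega⟩
  let j₀ : Fin m := ⟨0, by omega⟩
  let j₁ : Fin m := ⟨1, by omega⟩
  obtain ⟨y, hyv⟩ : ∃ y : G → AltEP A m, ∀ x, y x = toA A m s ((g x).1.1.left i₀) :=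
    ⟨_, fun x => rfl⟩
  have hy2 : ∀ x, (y x).1.2 = q x := by
    intro x
    have h1 := toA_proj A m s hs ((g x).1.1.left i₀)
    have h2 := ((mem_AltEP _ n _).1 (g x).2).1 i₀
    rw [hyv]
    exact (h1.trans h2).trans (hq x)
  have hy1 : ∀ x, A ((y x).1.1.left j₀) = q x := by
    intro x
    rw [((mem_AltEP A m _).1 (y x).2).1 j₀, hy2]
  have hgr : ∀ h ∈ sInf S, (g h).1.1.right = 1 := by
    intro h hh
    have h1 := hH h hh
    rw [← theta_right A m s n (g h), h1]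
    rfl
  have hyr : ∀ h ∈ sInf S, (y h).1.1.right = 1 := by
    intro h hh
    have h1 := hH h hh
    have h2 := theta_left A m s n (g h) i₀
    rw [h1] at h2
    have h3 := beta_val A m s ((g h).1.1.left i₀)
    rw [← h2] at h3
    rw [hyv]
    exact h3.symm
  have hymul : ∀ h ∈ sInf S, ∀ h', y (h * h') = y h * y h' := by
    intro h hh h'
    rw [hyv, hyv, hyv, map_mul g, alt_mul_left _ n (g h) (g h') (hgr h hh), map_mul]
  have hymul' : ∀ h ∈ sInf S, ∀ h', (y (h * h')).1.1.left j₀ =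
      (y h).1.1.left j₀ * (y h').1.1.left j₀ := by
    intro h hh h'
    rw [hymul h hh, alt_mul_left A m (y h) (y h') (hyr h hh)]
  have hyg : ∀ x, g x = 1 → y x = 1 := by
    intro x hx
    rw [hyv, hx, alt_one_left, map_one]
  have hy1' : y 1 = 1 := hyg 1 (map_one g)
  have hmem : ∀ x : (sInf S : Subgroup G), indProj Δ α ((y x).1.1.left j₀) ∈ Δ := by
    intro x
    rw [← hA, hy1, hΔ]
    exact ⟨x, x.2, rfl⟩
  let ψ : (sInf S : Subgroup G) →* B :=
    { toFun := fun x => ev Δ α ((y x).1.1.left j₀)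
      map_one' := by
        change ev Δ α ((y ((1 : (sInf S : Subgroup G)) : G)).1.1.left j₀) = 1
        rw [Subgroup.coe_one, hy1', alt_one_left]
        rfl
      map_mul' := by
        intro x x'
        change ev Δ α ((y ((x * x' : (sInf S : Subgroup G)) : G)).1.1.left j₀) = _
        rw [Subgroup.coe_mul, hymul' x x.2, ev_mul Δ α _ _ (hmem x)] }
  have hψv : ∀ x : (sInf S : Subgroup G), ψ x = ev Δ α ((y x).1.1.left j₀) := fun x => rfl
  refine ⟨ψ, ?_, ?_, ?_⟩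
  · refine Subgroup.isOpen_mono (H₁ := g.ker.comap (sInf S : Subgroup G).subtype) ?_ ?_
    · intro x hx
      rw [Subgroup.mem_comap, MonoidHom.mem_ker] at hx
      have h1 : y (x : G) = 1 := hyg _ hx
      rw [MonoidHom.mem_ker, hψv, h1, alt_one_left]
      rfl
    · exact hgo.preimage continuous_subtype_val
  · intro b
    obtain ⟨w, hw1, hw2⟩ := exists_ind_ev Δ α hα b
    obtain ⟨h, hh, hh2⟩ := (hΔ (α b)).1 (α b).2
    have hc : w * ((y h).1.1.left j₀)⁻¹ ∈ A.ker := by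
      rw [MonoidHom.mem_ker, map_mul, map_inv, hy1, hA, hw1, hh2, mul_inv_cancel]
    let c : A.ker := ⟨w * ((y h).1.1.left j₀)⁻¹, hc⟩
    let k0 : K0 A m := ⟨eC A m j₀ j₁ c, eC_mem A m hm5 j₀ j₁ c⟩
    have hk0 : k0 ∈ Res (K0 A m) := eC_res A m hm5 c
    have hk := Res_equiv (kerE A m s) k0 hk0
    have hv := single_res A m s n i₀ _ hk
    obtain ⟨h', hh', hv'⟩ := TRes2_map g hgs hgo (inK (pr0 A m s) n).range
      (range_inK_normal _ n) (range_le_Res A m s n (by omega)) _ hv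
    have hhS : h' ∈ sInf S := by
      rw [Subgroup.mem_sInf]
      intro N hN
      exact hS.le N hN hh'
    refine ⟨⟨h' * h, (sInf S).mul_mem hhS hh⟩, ?_⟩
    have h1 : (y h').1.1.left j₀ = w * ((y h).1.1.left j₀)⁻¹ := by
      rw [hyv, hv', inK_single_left, kerE_val, toA_inl]
      exact eC_left A m j₀ j₁ (by simp [j₀, j₁]) c
    rw [hψv]
    change ev Δ α ((y (h' * h)).1.1.left j₀) = b
    rw [hymul' h' hhS, h1, inv_mul_cancel_right, hw2]
  · intro x
    rw [hψv, α_ev Δ α _ (hmem x), ← hA, hy1]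

theorem core3E {G : Type} [Group G] [TopologicalSpace G] [IsTopologicalGroup G] [CompactSpace G]
    [TotallyDisconnectedSpace G] {D : Set ℕ} (hD : ∀ a : ℕ, 0 < a → ∃ m ∈ D, 0 < m ∧ a ∣ m)
    {E : Set ℕ} (hG : PerfSolvE G E) (S : Set (Subgroup G)) (hS : GoodE G D E S) :
    SolvesAll (sInf S : Subgroup G) := by
  classical
  intro Γ₁ B₁ _ _ _ _ f hf hfs α₁ hα₁
  -- the open normal subgroup `U`
  obtain ⟨V, hV, hVf⟩ := isOpen_induced_iff.1 hf
  have h1V : (1 : G) ∈ V := by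
    have h1 : (1 : (sInf S : Subgroup G)) ∈ (Subtype.val ⁻¹' V : Set (sInf S : Subgroup G)) := by
      rw [hVf]
      exact f.ker.one_mem
    exact h1
  obtain ⟨U, hU⟩ := ProfiniteGrp.exist_openNormalSubgroup_sub_open_nhds_of_one hV h1V
  have hUn : (U : Subgroup G).Normal := U.isNormal'
  have hUo : IsOpen ((U : Subgroup G) : Set G) := U.isOpen'
  have hUf : ∀ h : (sInf S : Subgroup G), (h : G) ∈ (U : Subgroup G) → f h = 1 := by
    intro h hh
    have h1 : h ∈ (Subtype.val ⁻¹' V : Set (sInf S : Subgroup G)) := hU hh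
    rw [hVf] at h1
    exact h1
  let q : G →* G ⧸ (U : Subgroup G) := QuotientGroup.mk' (U : Subgroup G)
  have hqk : q.ker = (U : Subgroup G) := QuotientGroup.ker_mk' _
  have hqs : Function.Surjective q := QuotientGroup.mk'_surjective _
  have hfin : Finite (G ⧸ (U : Subgroup G)) := Subgroup.quotient_finite_of_isOpen _ hUo
  let Δ : Subgroup (G ⧸ (U : Subgroup G)) := (sInf S : Subgroup G).map q
  let qH : (sInf S : Subgroup G) →* Δ := q.subgroupMap (sInf S)
  have hqHs : Function.Surjective qH := q.subgroupMap_surjective (sInf S)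
  have hqHv : ∀ x : (sInf S : Subgroup G), (qH x : G ⧸ (U : Subgroup G)) = q x := fun x => rfl
  have hker : qH.ker ≤ f.ker := by
    intro x hx
    rw [MonoidHom.mem_ker] at hx ⊢
    apply hUf
    rw [← hqk, MonoidHom.mem_ker, ← hqHv, hx]
    rfl
  let φ : Δ →* Γ₁ := qH.liftOfSurjective hqHs ⟨f, hker⟩
  have hφ : ∀ x, φ (qH x) = f x := fun x =>
    MonoidHom.liftOfRightInverse_comp_apply qH _ (Function.rightInverse_surjInv hqHs) ⟨f, hker⟩ x
  -- the pullback
  let P : Subgroup (B₁ × Δ) := (α₁.comp (MonoidHom.fst B₁ Δ)).eqLocus (φ.comp (MonoidHom.snd B₁ Δ))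
  have hP : ∀ p : B₁ × Δ, p ∈ P ↔ α₁ p.1 = φ p.2 := fun p => Iff.rfl
  let α : P →* Δ := (MonoidHom.snd B₁ Δ).comp P.subtype
  have hα : Function.Surjective α := by
    intro δ
    obtain ⟨b, hb⟩ := hα₁ (φ δ)
    exact ⟨⟨(b, δ), hb⟩, rfl⟩
  have hΔ : ∀ γ, γ ∈ Δ ↔ ∃ h ∈ sInf S, q h = γ := fun γ => Subgroup.mem_map
  obtain ⟨ψ, h1, h2, h3⟩ := core2E hD hG S hS q (by rw [hqk]; exact hUo) hqs Δ hΔ α hα
  refine ⟨(MonoidHom.fst B₁ Δ).comp (P.subtype.comp ψ), ?_, ?_, ?_⟩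
  · refine Subgroup.isOpen_mono (H₁ := ψ.ker) ?_ h1
    intro x hx
    rw [MonoidHom.mem_ker] at hx ⊢
    rw [MonoidHom.comp_apply, MonoidHom.comp_apply, hx, map_one, map_one]
  · intro b
    obtain ⟨x, hx⟩ := hfs (α₁ b)
    have h4 : α₁ b = φ (qH x) := by rw [hφ, hx]
    obtain ⟨y, hy⟩ := h2 ⟨(b, qH x), h4⟩
    refine ⟨y, ?_⟩
    rw [MonoidHom.comp_apply, MonoidHom.comp_apply, hy]
    rfl
  · intro x
    have h4 : α₁ (ψ x).1.1 = φ (ψ x).1.2 := (ψ x).2
    change α₁ (ψ x).1.1 = f x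
    rw [h4]
    have h5 : (ψ x).1.2 = qH x := by
      apply Subtype.ext
      rw [hqHv]
      exact h3 x
    rw [h5, hφ]

end Pool.Agent.H418.FQ
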