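import Mathlib
import Pool.Agent.H418.FQ.CorE
import Pool.Agent.H418.FP.Two
import Pool.Agent.H418.FA.Lat3

/-!
Simple quotients of composita of wreath products.
-/

set_option autoImplicit false
set_option linter.unusedSectionVars false

namespace Pool.Agent.H418.FQ

open Pool.Agent.H391R2 Pool.Agent.H391R2.T4 Pool.Agent.Y793 Pool.Agent.H418.FA
open Pool.Agent.H418.FP

theorem ns_ne_top {G : Type} [Group G] {R : Subgroup G} (hR : NS R) : R ≠ ⊤ := by
  intro h
  obtain ⟨a, b, hab⟩ := hR.ncomm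
  exact hab (h ▸ Subgroup.mem_top _)

theorem pi_index (m n : ℕ) (hm : 5 ≤ m) (R : Subgroup (Fin n → alternatingGroup (Fin m)))
    (hR : NS R) : R.index = Nat.card (alternatingGroup (Fin m)) := by
  classical
  have hms := altSimple m hm
  let ev : ∀ i : Fin n, (Fin n → alternatingGroup (Fin m)) →* alternatingGroup (Fin m) :=
    fun i => Pi.evalMonoidHom _ i
  have hevs : ∀ i, Function.Surjective (ev i) := fun i y => ⟨fun _ => y, rfl⟩
  have h1 : ∃ i, (ev i).ker ≤ R := by
    by_contra hc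
    push Not at hc
    let _ : TopologicalSpace (Fin n → alternatingGroup (Fin m)) := ⊥
    have _ : DiscreteTopology (Fin n → alternatingGroup (Fin m)) := ⟨rfl⟩
    refine hR.finset (Finset.univ.image fun i => (ev i).ker) ?_ ?_
    · intro C hC
      obtain ⟨i, -, rfl⟩ := Finset.mem_image.1 hC
      exact ⟨inferInstance, hc i⟩
    · intro x hx
      have h2 : x = 1 := by
        funext i
        have h4 : (Finset.univ.image fun i => (ev i).ker).inf id ≤ (ev i).ker :=
          Finset.inf_le (f := id) (Finset.mem_image_of_mem _ (Finset.mem_univ i))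
        exact h4 hx
      rw [h2]
      exact R.one_mem
  obtain ⟨i, hi⟩ := h1
  have h2 := NS.of_ker (altNoncomm m hm) (ev i) (hevs i)
  have h3 : R = (ev i).ker := by
    rcases h2.max R hR.normal hi with h | h
    · exact h
    · exact (ns_ne_top hR h).elim
  rw [h3, Subgroup.index_ker, MonoidHom.range_eq_top.2 (hevs i), Subgroup.card_top]

theorem aw_index (m n : ℕ) (hm : 5 ≤ m) (hn : 5 ≤ n) (R : Subgroup (AW m n)) (hR : NS R) :
    R.index = Nat.card (alternatingGroup (Fin m)) ∨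
      R.index = Nat.card (alternatingGroup (Fin n)) := by
  obtain ⟨il, hil⟩ : ∃ il : (Fin n → alternatingGroup (Fin m)) →* AW m n,
    il = SemidirectProduct.inl := ⟨_, rfl⟩
  obtain ⟨rh, hrh⟩ : ∃ rh : AW m n →* alternatingGroup (Fin n),
    rh = SemidirectProduct.rightHom := ⟨_, rfl⟩
  have hrs : Function.Surjective rh := by
    rw [hrh]
    exact SemidirectProduct.rightHom_surjective
  have hB : il.range = rh.ker := by
    rw [hil, hrh]
    exact SemidirectProduct.range_inl_eq_ker_rightHom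
  have hBn : il.range.Normal := by
    rw [hB]
    infer_instance
  by_cases h : il.range ≤ R
  · right
    have hns := altSimple n hn
    have h2 := NS.of_ker (altNoncomm n hn) rh hrs
    have h3 : R = rh.ker := by
      rcases h2.max R hR.normal (hB ▸ h) with h | h
      · exact h
      · exact (ns_ne_top hR h).elim
    rw [h3, Subgroup.index_ker, MonoidHom.range_eq_top.2 hrs, Subgroup.card_top]
  · left
    have h1 := ns_subgroupOf hR hBn h
    have h2 := NS_comap h1 il.rangeRestrict il.rangeRestrict_surjective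
    have h3 := pi_index m n hm _ h2
    rw [Subgroup.index_comap_of_surjective _ il.rangeRestrict_surjective] at h3
    have h4 : R.relIndex il.range = R.index := by
      have := hR.normal
      rw [← Subgroup.relIndex_sup_right, hR.sup_eq_top hBn h, Subgroup.relIndex_top_right]
    rw [← h4]
    exact h3

theorem semi_alt (n : ℕ) (hn : 5 ≤ n) : Semi (alternatingGroup (Fin n)) :=
  ⟨Unit, inferInstance, fun _ => alternatingGroup (Fin n), fun _ => inferInstance,
    fun _ => ⟨altSimple n hn, altNoncomm n hn⟩,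
    ⟨(MulEquiv.funUnique Unit (alternatingGroup (Fin n))).symm⟩⟩

theorem semi_ker (m n : ℕ) (hm : 5 ≤ m) :
    Semi (SemidirectProduct.rightHom : AW m n →* alternatingGroup (Fin n)).ker :=
  ⟨Fin n, inferInstance, fun _ => alternatingGroup (Fin m), fun _ => inferInstance,
    fun _ => ⟨altSimple m hm, altNoncomm m hm⟩,
    ⟨((MonoidHom.ofInjective (f := (SemidirectProduct.inl :
      (Fin n → alternatingGroup (Fin m)) →* AW m n)) SemidirectProduct.inl_injective).trans
      (MulEquiv.subgroupCongr SemidirectProduct.range_inl_eq_ker_rightHom)).symm⟩⟩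

/-- `M` is the kernel of an epimorphism onto `A_m ≀ A_n`, `m, n ∈ X`. -/
def WrK (G : Type) [Group G] [TopologicalSpace G] (X : Set ℕ) (M : Subgroup G) : Prop :=
  ∃ m n, m ∈ X ∧ n ∈ X ∧ 5 ≤ m ∧ 5 ≤ n ∧ ∃ f : G →* AW m n, Function.Surjective f ∧
    IsOpen (f.ker : Set G) ∧ f.ker = M

section

variable {G : Type} [Group G] [TopologicalSpace G] [IsTopologicalGroup G]

theorem WrK.le {X : Set ℕ} {M : Subgroup G} (h : WrK G X M) : TRes2 G ≤ M := by
  obtain ⟨m, n, -, -, hm, hn, f, hf, hfo, rfl⟩ := h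
  exact TRes2_le f hf hfo SemidirectProduct.rightHom SemidirectProduct.rightHom_surjective
    (semi_alt n hn) (semi_ker m n hm)

theorem WrK.mono {X Y : Set ℕ} {M : Subgroup G} (h : WrK G X M) (hXY : X ⊆ Y) : WrK G Y M := by
  obtain ⟨m, n, h1, h2, h3⟩ := h
  exact ⟨m, n, hXY h1, hXY h2, h3⟩

theorem simple_index [CompactSpace G] {X : Set ℕ} {S : Set (Subgroup G)}
    (hS : ∀ M ∈ S, WrK G X M) {N : Subgroup G} (hN : NS N) (hNo : IsOpen (N : Set G))
    (h : sInf S ≤ N) : ∃ a ∈ X, 5 ≤ a ∧ N.index = Nat.card (alternatingGroup (Fin a)) := by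
  obtain ⟨T, hT, hTN⟩ := exists_finset S (fun M hM => by
    obtain ⟨m, n, -, -, -, -, f, -, hfo, rfl⟩ := hS M hM
    exact hfo) N hNo h
  have h1 : ∃ M ∈ T, M ≤ N := by
    by_contra hc
    push Not at hc
    refine hN.finset T (fun C hC => ⟨?_, hc C hC⟩) hTN
    obtain ⟨m, n, -, -, -, -, f, -, -, rfl⟩ := hS C (hT hC)
    infer_instance
  obtain ⟨M, hM, hMN⟩ := h1
  obtain ⟨m, n, hmX, hnX, hm, hn, f, hf, hfo, rfl⟩ := hS M (hT hM)
  have h2 := hN.map f hf hMN
  have h3 : (N.map f).index = N.index := by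
    rw [← Subgroup.index_comap_of_surjective (N.map f) hf, Subgroup.comap_map_eq, sup_eq_left.2 hMN]
  rcases aw_index m n hm hn _ h2 with h4 | h4
  · exact ⟨m, hmX, hm, by rw [← h3, h4]⟩
  · exact ⟨n, hnX, hn, by rw [← h3, h4]⟩

theorem exists_max (Q : Type) [Group Q] [Finite Q] (hQ : (⊥ : Subgroup Q) ≠ ⊤) :
    ∃ N : Subgroup Q, N.Normal ∧ N ≠ ⊤ ∧
      ∀ M : Subgroup Q, M.Normal → N ≤ M → M = N ∨ M = ⊤ := by
  have hfin : ({N : Subgroup Q | N.Normal ∧ N ≠ ⊤}).Finite := Set.toFinite _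
  obtain ⟨N, hN⟩ := hfin.exists_maximal ⟨⊥, inferInstance, hQ⟩
  refine ⟨N, hN.prop.1, hN.prop.2, fun M hM hNM => ?_⟩
  by_cases h : M = ⊤
  · exact Or.inr h
  · exact Or.inl (le_antisymm (hN.2 ⟨hM, h⟩ hNM) hNM)

theorem exists_open_of_closed [CompactSpace G] [T2Space G] [TotallyDisconnectedSpace G]
    (A B : Subgroup G) (hA : A.Normal) (hB : B.Normal) (hAc : IsClosed (A : Set G))
    (hBc : IsClosed (B : Set G)) (h : A ⊔ B ≠ ⊤) :
    ∃ W : Subgroup G, W.Normal ∧ IsOpen (W : Set G) ∧ W ≠ ⊤ ∧ A ≤ W ∧ B ≤ W := by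
  have hc : IsClosed ((A ⊔ B : Subgroup G) : Set G) := by
    rw [Subgroup.mul_normal]
    exact (hAc.isCompact.mul hBc.isCompact).isClosed
  have h1 : ∃ g : G, g ∉ A ⊔ B := by
    by_contra hcon
    push Not at hcon
    exact h (eq_top_iff.2 fun x _ => hcon x)
  obtain ⟨g, hg⟩ := h1
  have hVo : IsOpen ((fun x : G => g * x) ⁻¹' ((A ⊔ B : Subgroup G) : Set G)ᶜ) :=
    hc.isOpen_compl.preimage (continuous_const.mul continuous_id)
  obtain ⟨U, hU⟩ := ProfiniteGrp.exist_openNormalSubgroup_sub_open_nhds_of_one hVo (by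
    change g * 1 ∉ ((A ⊔ B : Subgroup G) : Set G)
    rw [mul_one]
    exact hg)
  have hUn : (U : Subgroup G).Normal := U.isNormal'
  have hUo : IsOpen ((U : Subgroup G) : Set G) := U.isOpen'
  refine ⟨(A ⊔ B) ⊔ (U : Subgroup G), inferInstance,
    Subgroup.isOpen_mono (H₁ := (U : Subgroup G)) le_sup_right hUo, ?_,
    le_sup_left.trans le_sup_left, le_sup_right.trans le_sup_left⟩
  intro h2
  have h3 : g ∈ (A ⊔ B) ⊔ (U : Subgroup G) := h2 ▸ Subgroup.mem_top g
  obtain ⟨a, ha, u, hu, rfl⟩ := Subgroup.mem_sup_of_normal_right.1 h3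
  have h4 : a * u * u⁻¹ ∉ ((A ⊔ B : Subgroup G) : Set G) := hU (U.inv_mem hu)
  apply h4
  rw [mul_inv_cancel_right]
  exact ha

theorem card_alt_inj {a b : ℕ} (ha : 5 ≤ a) (hb : 5 ≤ b)
    (h : Nat.card (alternatingGroup (Fin a)) = Nat.card (alternatingGroup (Fin b))) : a = b := by
  have : Nontrivial (Fin a) := Fin.nontrivial_iff_two_le.2 (by omega)
  have : Nontrivial (Fin b) := Fin.nontrivial_iff_two_le.2 (by omega)
  have h1 := two_mul_nat_card_alternatingGroup (α := Fin a)
  have h2 := two_mul_nat_card_alternatingGroup (α := Fin b)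
  rw [Nat.card_perm, Nat.card_eq_fintype_card, Nat.card_eq_fintype_card, Fintype.card_fin] at h1 h2
  rw [Nat.card_eq_fintype_card, Nat.card_eq_fintype_card] at h
  have h3 : a.factorial = b.factorial := by
    rw [← h1, ← h2, h]
  exact (Nat.factorial_inj (by omega)).1 h3

theorem sup_top [CompactSpace G] [T2Space G] [TotallyDisconnectedSpace G] {X Y : Set ℕ}
    (hXY : Disjoint X Y) (S S' : Set (Subgroup G)) (hS : ∀ M ∈ S, WrK G X M)
    (hS' : ∀ M ∈ S', WrK G Y M) : sInf S ⊔ sInf S' = ⊤ := by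
  have hn : ∀ (Z : Set ℕ) (T : Set (Subgroup G)), (∀ M ∈ T, WrK G Z M) →
      (sInf T).Normal ∧ IsClosed ((sInf T : Subgroup G) : Set G) := by
    intro Z T hT
    refine ⟨⟨fun x hx g => ?_⟩, ?_⟩
    · rw [Subgroup.mem_sInf] at hx ⊢
      intro M hM
      have h1 := hx M hM
      obtain ⟨m, n, -, -, -, -, f, -, -, rfl⟩ := hT M hM
      exact (inferInstance : f.ker.Normal).conj_mem x h1 g
    · rw [Subgroup.coe_sInf]
      refine isClosed_biInter fun M hM => ?_
      obtain ⟨m, n, -, -, -, -, f, -, hfo, rfl⟩ := hT M hM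
      exact Subgroup.isClosed_of_isOpen _ hfo
  by_contra h
  obtain ⟨W, hWn, hWo, hWt, hAW, hBW⟩ := exists_open_of_closed (sInf S) (sInf S')
    (hn X S hS).1 (hn Y S' hS').1 (hn X S hS).2 (hn Y S' hS').2 h
  have hfin : Finite (G ⧸ W) := Subgroup.quotient_finite_of_isOpen _ hWo
  obtain ⟨N₀, hN₀, hN₀t, hN₀m⟩ := exists_max (G ⧸ W) (by
    intro h1
    apply hWt
    rw [eq_top_iff]
    intro x _
    have h2 : (QuotientGroup.mk x : G ⧸ W) ∈ (⊥ : Subgroup (G ⧸ W)) := h1 ▸ Subgroup.mem_top _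
    rw [Subgroup.mem_bot] at h2
    exact (QuotientGroup.eq_one_iff x).1 h2)
  obtain ⟨N, hN⟩ : ∃ N, N = N₀.comap (QuotientGroup.mk' W) := ⟨_, rfl⟩
  have hNn : N.Normal := by
    rw [hN]
    exact hN₀.comap _
  have hWN : W ≤ N := by
    rw [hN]
    intro x hx
    rw [Subgroup.mem_comap]
    have h1 : QuotientGroup.mk' W x = 1 := (QuotientGroup.eq_one_iff x).2 hx
    rw [h1]
    exact N₀.one_mem
  have hNo : IsOpen (N : Set G) := Subgroup.isOpen_mono hWN hWo
  have hNt : N ≠ ⊤ := by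
    intro h1
    apply hN₀t
    rw [eq_top_iff]
    intro y _
    obtain ⟨x, rfl⟩ := QuotientGroup.mk'_surjective W y
    have h2 : x ∈ N := h1 ▸ Subgroup.mem_top x
    rw [hN] at h2
    exact h2
  have hNm : ∀ M : Subgroup G, M.Normal → N ≤ M → M = N ∨ M = ⊤ := by
    intro M hM hNM
    have h1 : (M.map (QuotientGroup.mk' W)).Normal := hM.map _ (QuotientGroup.mk'_surjective W)
    have h2 : (M.map (QuotientGroup.mk' W)).comap (QuotientGroup.mk' W) = M := by
      rw [Subgroup.comap_map_eq, QuotientGroup.ker_mk', sup_eq_left]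
      exact hWN.trans hNM
    have h3 : N₀ ≤ M.map (QuotientGroup.mk' W) := by
      intro y hy
      obtain ⟨x, rfl⟩ := QuotientGroup.mk'_surjective W y
      refine ⟨x, hNM ?_, rfl⟩
      rw [hN]
      exact hy
    rcases hN₀m _ h1 h3 with h4 | h4
    · left
      rw [← h2, h4, hN]
    · right
      rw [← h2, h4, Subgroup.comap_top]
  by_cases hcm : ∃ a b : G, a * b * a⁻¹ * b⁻¹ ∉ N
  · have hNS : NS N := ⟨hNn, hcm, hNm⟩
    obtain ⟨a, haX, ha, hai⟩ := simple_index hS hNS hNo (hAW.trans hWN)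
    obtain ⟨b, hbY, hb, hbi⟩ := simple_index hS' hNS hNo (hBW.trans hWN)
    have hab := card_alt_inj ha hb (hai.symm.trans hbi)
    exact Set.disjoint_left.1 hXY haX (hab ▸ hbY)
  · push Not at hcm
    have hsol : Group.IsSolvable (G ⧸ N) := by
      have hc2 : ∀ x y : G ⧸ N, x * y = y * x := by
        intro x y
        obtain ⟨a, rfl⟩ := QuotientGroup.mk'_surjective N x
        obtain ⟨b, rfl⟩ := QuotientGroup.mk'_surjective N y
        have h1 : QuotientGroup.mk' N (a * b * a⁻¹ * b⁻¹) = 1 :=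
          (QuotientGroup.eq_one_iff _).2 (hcm a b)
        rw [map_mul, map_mul, map_mul, map_inv, map_inv, mul_inv_eq_one, mul_inv_eq_iff_eq_mul] at h1
        exact h1
      let _ : CommGroup (G ⧸ N) := { (inferInstance : Group (G ⧸ N)) with mul_comm := hc2 }
      exact Group.isSolvable_of_comm hc2
    apply hNt
    rw [eq_top_iff]
    intro x _
    have h1 := solvable_quot hsol (QuotientGroup.mk' N) (QuotientGroup.mk'_surjective N)
      (by rw [QuotientGroup.ker_mk']; exact hNo) (by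
        rw [QuotientGroup.ker_mk']
        exact (le_sInf fun M hM => (hS M hM).le).trans (hAW.trans hWN)) (QuotientGroup.mk' N x)
    exact (QuotientGroup.eq_one_iff x).1 h1

end

end Pool.Agent.H418.FQ
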