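import Mathlib
import Pool.Agent.H418.FQ.CorE
import Pool.Agent.H418.FP.Fld
import Pool.Agent.H418.FA.Seq

/-!
Disjoint sets of degrees.
-/

set_option autoImplicit false

namespace Pool.Agent.H418.FQ

open Pool.Agent.H391R2 Pool.Agent.H391R2.T4 Pool.Agent.Y793 Pool.Agent.H418.FA
open Pool.Agent.H418.FP
open Pool.Agent.N70.EP.Voc Pool.Agent.N70.PP.Voc

/-- The degrees for which the fibre powers of `α` are solvable over `G`. -/
def OkN (G : Type) [Group G] [TopologicalSpace G] {Γ B : Type} [Group Γ] [Group B]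
    (α : B →* Γ) : Set ℕ :=
  {n | 5 ≤ n ∧ ∀ q : G →* Γ, IsOpen (q.ker : Set G) → Function.Surjective q →
    ∃ g : G →* AltEP α n, IsOpen (g.ker : Set G) ∧ Function.Surjective g ∧
      ∀ x, altProj α n (g x) = q x}

/-- Transport. -/
theorem OkN.trans {G : Type} [Group G] [TopologicalSpace G] [IsTopologicalGroup G] {Γ B Γ' B' : Type} [Group Γ]
    [Group B] [Group Γ'] [Group B'] (α : B →* Γ) (α' : B' →* Γ') (eB : B' ≃* B) (eΓ : Γ' ≃* Γ)
    (h : ∀ b, α (eB b) = eΓ (α' b)) : OkN G α' ⊆ OkN G α := by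
  rintro n ⟨hn5, hn⟩
  refine ⟨hn5, fun q hq hqs => ?_⟩
  obtain ⟨g, hg, hgs, hgq⟩ := hn (eΓ.symm.toMonoidHom.comp q) (by
    refine Subgroup.isOpen_mono (H₁ := q.ker) (fun x hx => ?_) hq
    rw [MonoidHom.mem_ker] at hx ⊢
    rw [MonoidHom.comp_apply, hx, map_one]) (eΓ.symm.surjective.comp hqs)
  obtain ⟨am, ham1, ham2⟩ : ∃ am : AltEP α' n →* AltEP α n, Function.Surjective am ∧
      ∀ x, altProj α n (am x) = eΓ (altProj α' n x) := by
    refine ⟨altMap α' α eB.toMonoidHom eΓ.toMonoidHom h n, ?_, fun x => rfl⟩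
    refine altMap_surjective α' α eB.toMonoidHom eΓ.toMonoidHom h n eΓ.surjective ?_
    intro b γ hbγ
    refine ⟨eB.symm b, eB.apply_symm_apply b, ?_⟩
    apply eΓ.injective
    rw [← h, eB.apply_symm_apply]
    exact hbγ
  refine ⟨am.comp g, ?_, ham1.comp hgs, fun x => ?_⟩
  · refine Subgroup.isOpen_mono (H₁ := g.ker) (fun y hy => ?_) hg
    rw [MonoidHom.mem_ker] at hy ⊢
    rw [MonoidHom.comp_apply, hy, map_one]
  · rw [MonoidHom.comp_apply, ham2, hgq]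
    exact eΓ.apply_symm_apply _

/-- Every finite group is isomorphic to a subgroup of a symmetric group. -/
theorem exists_cayley (B : Type) [Group B] [Finite B] :
    ∃ (k : ℕ) (P : Subgroup (Equiv.Perm (Fin k))), Nonempty (P ≃* B) := by
  let _ : Fintype B := Fintype.ofFinite B
  let eA : B ≃ Fin (Fintype.card B) := Fintype.equivFin B
  let c : B →* Equiv.Perm (Fin (Fintype.card B)) :=
    (eA.permCongrHom.toMonoidHom).comp (MulAction.toPermHom B B)
  have hc : Function.Injective c :=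
    eA.permCongrHom.injective.comp (MulAction.toPerm_injective)
  exact ⟨_, c.range, ⟨(MonoidHom.ofInjective hc).symm⟩⟩

/-- The types of embedding problems. -/
def Task : Type := (p : ℕ × ℕ) × ((Q : Subgroup (Equiv.Perm (Fin p.1)) ×
  Subgroup (Equiv.Perm (Fin p.2))) × (Q.2 →* Q.1))

theorem countable_task : Countable Task := by
  have h0 : ∀ (p : ℕ × ℕ) (Q : Subgroup (Equiv.Perm (Fin p.1)) ×
      Subgroup (Equiv.Perm (Fin p.2))), Countable (Q.2 →* Q.1) := by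
    intro p Q
    have h1 : Finite (Q.2 →* Q.1) :=
      Finite.of_injective (fun f => (f : Q.2 → Q.1)) DFunLike.coe_injective
    exact Finite.to_countable
  have h1 : ∀ p : ℕ × ℕ, Countable ((Q : Subgroup (Equiv.Perm (Fin p.1)) ×
      Subgroup (Equiv.Perm (Fin p.2))) × (Q.2 →* Q.1)) := by
    intro p
    have := h0 p
    infer_instance
  exact inferInstanceAs (Countable ((p : ℕ × ℕ) × ((Q : Subgroup (Equiv.Perm (Fin p.1)) ×
    Subgroup (Equiv.Perm (Fin p.2))) × (Q.2 →* Q.1))))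

theorem exists_task {Γ B : Type} [Group Γ] [Finite Γ] [Group B] [Finite B] (α : B →* Γ) :
    ∃ (t : Task) (eB : t.2.1.2 ≃* B) (eΓ : t.2.1.1 ≃* Γ), ∀ b, α (eB b) = eΓ (t.2.2 b) := by
  obtain ⟨k, P, ⟨eΓ⟩⟩ := exists_cayley Γ
  obtain ⟨l, Q, ⟨eB⟩⟩ := exists_cayley B
  refine ⟨⟨(k, l), ⟨(P, Q), (eΓ.symm.toMonoidHom.comp α).comp eB.toMonoidHom⟩⟩, eB, eΓ,
    fun b => ?_⟩
  exact (eΓ.apply_symm_apply _).symm

/-- Disjoint sets which meet countably many given infinite sets. -/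
theorem exists_hit {ι : Type} [Countable ι] [Nonempty ι] (A : ι → Set ℕ) :
    ∃ X : ℕ → Set ℕ, (∀ j k, j ≠ k → Disjoint (X j) (X k)) ∧
      ∀ j i, (A i).Infinite → ∃ a ∈ X j, a ∈ A i := by
  classical
  obtain ⟨T₀, hT₀⟩ := exists_surjective_nat (ℕ × ι)
  have step : ∀ (k N : ℕ), ∃ a : ℕ, N < a ∧ ((A (T₀ k).2).Infinite → a ∈ A (T₀ k).2) := by
    intro k N
    by_cases h : (A (T₀ k).2).Infinite
    · obtain ⟨a, ha, haN⟩ := h.exists_gt N
      exact ⟨a, haN, fun _ => ha⟩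
    · exact ⟨N + 1, Nat.lt_succ_self N, fun h' => absurd h' h⟩
  choose nxt hn1 hn2 using step
  let s : ℕ → ℕ := fun i => Nat.rec (nxt 0 0) (fun i t => nxt (i + 1) t) i
  have hs0 : ∀ i, ∃ N, s i = nxt i N := by
    intro i
    cases i with
    | zero => exact ⟨0, rfl⟩
    | succ i => exact ⟨s i, rfl⟩
  have hs : StrictMono s := strictMono_nat_of_lt_succ fun i => hn1 (i + 1) (s i)
  refine ⟨fun j => {a | ∃ k, (T₀ k).1 = j ∧ s k = a}, fun j k hjk => ?_, fun j i hi => ?_⟩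
  · rw [Set.disjoint_left]
    rintro a ⟨u, hu, rfl⟩ ⟨v, hv, hvu⟩
    have h1 := hs.injective hvu
    subst h1
    exact hjk (hu.symm.trans hv)
  · obtain ⟨k, hk⟩ := hT₀ (j, i)
    refine ⟨s k, ⟨k, by rw [hk], rfl⟩, ?_⟩
    obtain ⟨N, hN⟩ := hs0 k
    have h1 := hn2 k N
    rw [hk] at h1
    rw [hN]
    exact h1 hi

/-- The degrees which are good for all Hilbertian fields of characteristic `p`. -/
def OkP (p : ℕ) {Γ B : Type} [Group Γ] [Group B] (α : B →* Γ) : Set ℕ :=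
  {n | ∀ (K Ω : Type) [Field K] [Field Ω] [Algebra K Ω] [IsSepClosed Ω] [IsGalois K Ω]
    [CharP K p], HilbField K → n ∈ OkN (Ω ≃ₐ[K] Ω) α}

theorem OkP.trans {p : ℕ} {Γ B Γ' B' : Type} [Group Γ]
    [Group B] [Group Γ'] [Group B'] (α : B →* Γ) (α' : B' →* Γ') (eB : B' ≃* B) (eΓ : Γ' ≃* Γ)
    (h : ∀ b, α (eB b) = eΓ (α' b)) : OkP p α' ⊆ OkP p α := by
  intro n hn K Ω _ _ _ _ _ _ hK
  exact OkN.trans α α' eB eΓ h (hn K Ω hK)
section

variable (K Ω : Type) [Field K] [Field Ω] [Algebra K Ω] [IsSepClosed Ω] [IsGalois K Ω]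

theorem okN_of (p n : ℕ) [CharP K p] (hK : HilbField K) (hn5 : 5 ≤ n) {Γ B : Type} [Group Γ]
    [Group B] (α : B →* Γ) (h : SolvableAll p (twPr α 1 n)) : n ∈ OkN (Ω ≃ₐ[K] Ω) α := by
  refine ⟨hn5, fun q hq hqs => ?_⟩
  let Uc : ClosedSubgroup (Ω ≃ₐ[K] Ω) := ⟨q.ker, Subgroup.isClosed_of_isOpen _ hq⟩
  let L : IntermediateField K Ω := IntermediateField.fixedField q.ker
  have hL : L.fixingSubgroup = q.ker := InfiniteGalois.fixingSubgroup_fixedField Uc
  have hLfd : FiniteDimensional K L := by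
    rw [← InfiniteGalois.isOpen_iff_finite]
    change IsOpen (L.fixingSubgroup : Set (Ω ≃ₐ[K] Ω))
    rw [hL]
    exact hq
  have hLg : IsGalois K L := by
    rw [← InfiniteGalois.normal_iff_isGalois, hL]
    infer_instance
  have hrs : Function.Surjective (AlgEquiv.restrictNormalHom L : (Ω ≃ₐ[K] Ω) →* (L ≃ₐ[K] L)) :=
    AlgEquiv.restrictNormalHom_surjective (F := K) (K₁ := L) Ω
  have hrk : (AlgEquiv.restrictNormalHom L : (Ω ≃ₐ[K] Ω) →* (L ≃ₐ[K] L)).ker = q.ker := by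
    rw [IntermediateField.restrictNormalHom_ker, hL]
  let e₁ := QuotientGroup.quotientKerEquivOfSurjective
    (AlgEquiv.restrictNormalHom L : (Ω ≃ₐ[K] Ω) →* (L ≃ₐ[K] L)) hrs
  let e₂ := QuotientGroup.quotientKerEquivOfSurjective q hqs
  let e : (L ≃ₐ[K] L) ≃* Γ :=
    (e₁.symm.trans (QuotientGroup.quotientMulEquivOfEq hrk)).trans e₂
  have he : ∀ x, e (AlgEquiv.restrictNormalHom L x) = q x := by
    intro x
    have h1 : e₁.symm (AlgEquiv.restrictNormalHom L x) = QuotientGroup.mk x := by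
      rw [MulEquiv.symm_apply_eq]
      rfl
    change e₂ (QuotientGroup.quotientMulEquivOfEq hrk (e₁.symm (AlgEquiv.restrictNormalHom L x))) = _
    rw [h1]
    rfl
  obtain ⟨g, hg1, hg2, hg3⟩ := hom_of_proper K Ω L _ ((h K L e).2 hK)
  refine ⟨(twAlt α n).comp g, ?_, (twAlt_surj α n).comp hg2, fun x => ?_⟩
  · refine Subgroup.isOpen_mono (H₁ := g.ker) ?_ hg1
    intro x hx
    rw [MonoidHom.mem_ker] at hx ⊢
    rw [MonoidHom.comp_apply, hx, map_one]
  · have h1 : e (e.symm (twPr α 1 n (g x))) = e (AlgEquiv.restrictNormalHom L x) :=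
      congrArg e (hg3 x)
    rw [e.apply_symm_apply, he] at h1
    exact h1

end

theorem okP_infinite (p : ℕ) [Fact p.Prime] (hp : p ≠ 2) {Γ B : Type} [Group Γ] [Finite Γ]
    [Group B] [Finite B] (α : B →* Γ) (hα : Function.Surjective α)
    (hperf : commutator α.ker = ⊤) : (OkP p α).Infinite := by
  refine Set.infinite_of_forall_exists_gt fun N => ?_
  obtain ⟨n, hn, -, h⟩ := Pool.Agent.N70.PP.fib_one hp α hα hperf (N + 5)
  exact ⟨n, fun K Ω _ _ _ _ _ _ hK => okN_of K Ω p n hK (by omega) α h, by omega⟩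

/-- The sets of degrees. -/
theorem exists_sets (p : ℕ) [Fact p.Prime] (hp : p ≠ 2) :
    ∃ X : ℕ → Set ℕ, (∀ j k, j ≠ k → Disjoint (X j) (X k)) ∧
      ∀ j, (∀ a : ℕ, 0 < a → ∃ m ∈ X j, 0 < m ∧ a ∣ m) ∧
        ∀ (K Ω : Type) [Field K] [Field Ω] [Algebra K Ω] [IsSepClosed Ω] [IsGalois K Ω]
          [CharP K p], HilbField K → PerfSolvE (Ω ≃ₐ[K] Ω) (X j) := by
  have h1 := countable_task
  obtain ⟨X, hX1, hX2⟩ := exists_hit (ι := ℕ ⊕ Task)
    (Sum.elim (fun a => {m | 0 < m ∧ a ∣ m}) (fun t => OkP p t.2.2))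
  refine ⟨X, hX1, fun j => ⟨fun a ha => ?_, ?_⟩⟩
  · obtain ⟨m, hm, hm2⟩ := hX2 j (Sum.inl a) (by
      change Set.Infinite {m | 0 < m ∧ a ∣ m}
      refine Set.infinite_of_forall_exists_gt fun N => ?_
      refine ⟨a * (N + 1), ⟨by positivity, Dvd.intro _ rfl⟩, ?_⟩
      nlinarith)
    exact ⟨m, hm, hm2.1, hm2.2⟩
  · intro K Ω _ _ _ _ _ _ hK Γ B _ _ _ _ q hq hqs α hα hperf
    obtain ⟨t, eB, eΓ, ht⟩ := exists_task α
    obtain ⟨n, hn, hn2⟩ := hX2 j (Sum.inr t) (by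
      change Set.Infinite (OkP p t.2.2)
      refine (okP_infinite p hp α hα hperf).mono
        (OkP.trans t.2.2 α eB.symm eΓ.symm fun b => ?_)
      apply eΓ.injective
      rw [← ht, eB.apply_symm_apply, eΓ.apply_symm_apply])
    have hn3 : n ∈ OkN (Ω ≃ₐ[K] Ω) α := OkN.trans α t.2.2 eB eΓ ht (hn2 K Ω hK)
    exact ⟨n, hn3.1, hn, hn3.2 q hq hqs⟩

end Pool.Agent.H418.FQ
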